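import Mathlib
import Pool.Agent.H45.F80.PDefs
import Pool.Agent.H45.F80.Main
set_option autoImplicit false

namespace Pool.Agent.Results.MP_80e906_al.FlatnessForSplittings
open Module F80

universe u

/-- Let `g = h ⊕ r` be a nondegenerate splitting of a reductive Lie algebra over an algebraically
closed field of characteristic zero, such that the algebra generated by the Poisson centres of the
members of minimal index of the pencil is a polynomial ring with algebraically independent
homogeneous generators `f 0, ..., f (m - 1)`. Then the generators form a regular sequence in the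
symmetric algebra, and the symmetric algebra is flat over the algebra they generate. -/
theorem result (k : Type u) [Field k] [IsAlgClosed k] [CharZero k]
    (g : Type u) [LieRing g] [LieAlgebra k g] [Module.Finite k g] (hg : IsRed k g)
    (h r : LieSubalgebra k g) (hc : IsCompl h.toSubmodule r.toSubmodule)
    (hnd : Nondeg k g h.toSubmodule r.toSubmodule hc)
    (N : ℕ) (bs : Basis (Fin N) k g) (m : ℕ) (f : Fin m → MvPolynomial (Fin N) k)
    (hhom : ∀ i, ∃ d : ℕ, (f i).IsHomogeneous d) (hind : AlgebraicIndependent k f)
    (hgen : Algebra.adjoin k (Set.range f) = Zalg bs hc) :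
    RingTheory.Sequence.IsRegular (MvPolynomial (Fin N) k) (List.ofFn f) ∧
      Module.Flat (Zalg bs hc) (MvPolynomial (Fin N) k) := by
  choose d hd using hhom
  obtain ⟨h1, h2⟩ := main hg h r hc hnd bs f d hd hind hgen
  exact ⟨h1, flat_of_aeval f hind h2 _ hgen⟩

end Pool.Agent.Results.MP_80e906_al.FlatnessForSplittings
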